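import Mathlib

set_option autoImplicit false

namespace Pool.MP_f7abb8_nt.Bound

open Finset

/-- Product of `p / (p - 1)` over a set of integers `≥ 3`. -/
theorem prod_ratio_le : ∀ (m : ℕ) (F : Finset ℕ), F.card = m → (∀ p ∈ F, 3 ≤ p) →
    ∏ p ∈ F, ((p : ℝ) / ((p : ℝ) - 1)) ≤ ((m : ℝ) + 2) / 2 := by
  intro m
  induction m with
  | zero =>
    intro F hF _
    rw [Finset.card_eq_zero] at hF
    subst hF
    simp
  | succ m ih =>
    intro F hF h3
    have hne : F.Nonempty := by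
      rw [← Finset.card_pos]; omega
    set M := F.max' hne with hM
    have hMF : M ∈ F := F.max'_mem hne
    have hMge : m + 3 ≤ M := by
      have hsub : F ⊆ Finset.Icc 3 M := by
        intro x hx
        rw [Finset.mem_Icc]
        exact ⟨h3 x hx, F.le_max' x hx⟩
      have hc := Finset.card_le_card hsub
      rw [Nat.card_Icc, hF] at hc
      omega
    have ih1 := ih (F.erase M) (by rw [Finset.card_erase_of_mem hMF, hF]; rfl)
      (fun p hp => h3 p (Finset.mem_of_mem_erase hp))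
    rw [← Finset.mul_prod_erase F _ hMF]
    have hMr : (m : ℝ) + 3 ≤ M := by exact_mod_cast hMge
    have hm0 : (0 : ℝ) ≤ m := Nat.cast_nonneg m
    have h1 : (M : ℝ) / ((M : ℝ) - 1) ≤ ((m : ℝ) + 3) / ((m : ℝ) + 2) := by
      rw [div_le_div_iff₀ (by linarith) (by linarith)]
      nlinarith
    have h2 : 0 ≤ ∏ p ∈ F.erase M, ((p : ℝ) / ((p : ℝ) - 1)) := by
      apply Finset.prod_nonneg
      intro p hp
      have := h3 p (Finset.mem_of_mem_erase hp)
      have : (3 : ℝ) ≤ p := by exact_mod_cast this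
      apply div_nonneg <;> linarith
    calc (M : ℝ) / ((M : ℝ) - 1) * ∏ p ∈ F.erase M, ((p : ℝ) / ((p : ℝ) - 1))
        ≤ ((m : ℝ) + 3) / ((m : ℝ) + 2) * (((m : ℝ) + 2) / 2) := by
          apply mul_le_mul h1 ih1 h2
          positivity
      _ = ((m : ℝ) + 3) / 2 := by field_simp
      _ = (((m + 1 : ℕ) : ℝ) + 2) / 2 := by push_cast; ring

/-- `(1 + 1/K)^m - 1 ≤ m/(K-m)`. -/
theorem pow_upper (m : ℕ) (K : ℝ) (hK : (m : ℝ) < K) :
    (1 + 1 / K) ^ m - 1 ≤ (m : ℝ) / (K - m) := by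
  have hm0 : (0 : ℝ) ≤ m := Nat.cast_nonneg m
  have hK0 : 0 < K := lt_of_le_of_lt hm0 hK
  have h1 : 1 - (m : ℝ) * (1 / K) ≤ (1 - 1 / K) ^ m := by
    rcases Nat.eq_zero_or_pos m with h | h
    · subst h; simp
    · have hK1 : 1 ≤ K := by
        have : (1 : ℝ) ≤ m := by exact_mod_cast h
        linarith
      have h2 : (-2 : ℝ) ≤ -(1 / K) := by
        have : 1 / K ≤ 1 := by rw [div_le_one hK0]; exact hK1
        linarith
      have := one_add_mul_le_pow h2 m
      calc 1 - (m : ℝ) * (1 / K) = 1 + (m : ℝ) * (-(1 / K)) := by ring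
        _ ≤ (1 + -(1 / K)) ^ m := this
        _ = (1 - 1 / K) ^ m := by ring
  have h3 : (1 + 1 / K) ^ m * (1 - 1 / K) ^ m ≤ 1 := by
    rcases Nat.eq_zero_or_pos m with h | h
    · subst h; simp
    · rw [← mul_pow]
      have hK1 : 1 ≤ K := by
        have : (1 : ℝ) ≤ m := by exact_mod_cast h
        linarith
      have hi : 0 ≤ 1 / K := by positivity
      have hi1 : 1 / K ≤ 1 := by rw [div_le_one hK0]; exact hK1
      apply pow_le_one₀
      · nlinarith
      · nlinarith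
  have h4 : 0 < 1 - (m : ℝ) * (1 / K) := by
    rw [sub_pos, mul_one_div, div_lt_one hK0]; exact hK
  have h5 : (1 + 1 / K) ^ m * (1 - (m : ℝ) * (1 / K)) ≤ 1 := by
    refine le_trans ?_ h3
    apply mul_le_mul_of_nonneg_left h1
    positivity
  have h6 : (1 + 1 / K) ^ m ≤ 1 / (1 - (m : ℝ) * (1 / K)) := by
    rw [le_div_iff₀ h4]; exact h5
  have h7 : 1 / (1 - (m : ℝ) * (1 / K)) - 1 = (m : ℝ) / (K - m) := by
    have : K - m ≠ 0 := ne_of_gt (sub_pos.2 hK)
    have hKne : K ≠ 0 := ne_of_gt hK0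
    have h8 : 1 - (m : ℝ) * (1 / K) = (K - m) / K := by field_simp
    rw [h8]
    field_simp
    ring
  linarith

/-- `1 - (1 - 1/K)^m ≤ m/(K-m)`. -/
theorem pow_lower (m : ℕ) (K : ℝ) (hK : (m : ℝ) < K) (hK1 : 1 ≤ K) :
    1 - (1 - 1 / K) ^ m ≤ (m : ℝ) / (K - m) := by
  have hm0 : (0 : ℝ) ≤ m := Nat.cast_nonneg m
  have hK0 : 0 < K := by linarith
  have h2 : (-2 : ℝ) ≤ -(1 / K) := by
    have : 1 / K ≤ 1 := by rw [div_le_one hK0]; exact hK1
    linarith
  have h3 := one_add_mul_le_pow h2 m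
  have h4 : 1 - (1 - 1 / K) ^ m ≤ (m : ℝ) / K := by
    have e1 : (1 + -(1 / K)) ^ m = (1 - 1 / K) ^ m := by ring
    have e2 : (m : ℝ) * (-(1 / K)) = -((m : ℝ) / K) := by ring
    rw [e1, e2] at h3
    linarith
  refine le_trans h4 ?_
  apply div_le_div_of_nonneg_left hm0 (by linarith) (by linarith)

/-- The analytic core: if `H P1 - g P2 = 1` with `P1, P2` close to `1`, then `H - g - 1` is small. -/
theorem core (H g P1 P2 c : ℝ) (hH : 0 ≤ H) (hg : 0 ≤ g) (heq : H * P1 - g * P2 = 1)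
    (h1 : P1 - 1 ≤ c) (h1' : 1 - P1 ≤ c) (h2 : 0 ≤ P2 - 1) (h2' : P2 - 1 ≤ c) :
    |H - g - 1| ≤ (H + g) * c := by
  have e : H - g - 1 = H * (1 - P1) + g * (P2 - 1) := by
    linear_combination heq
  rw [e, abs_le]
  constructor
  · nlinarith [mul_le_mul_of_nonneg_left h1 hH, mul_nonneg hg h2, mul_nonneg hg (le_trans h2 h2')]
  · nlinarith [mul_le_mul_of_nonneg_left h1' hH, mul_le_mul_of_nonneg_left h2' hg]

end Pool.MP_f7abb8_nt.Bound
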