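import Pool.Agent.H.MP_f7abb8_nt.Bound.Step

set_option autoImplicit false

namespace Pool.MP_f7abb8_nt.Bound

open Finset

/-- `D(R,Q)` -/
def DD (e : ℕ → ℕ) (a : ℕ) (R Q : Finset ℕ) : ℕ := 2 ^ a * (∏ p ∈ R, p ^ e p) * ∏ q ∈ Q, (q - 1)

/-- `B(R,Q)` -/
def BB (e : ℕ → ℕ) (a : ℕ) (R Q : Finset ℕ) : ℕ := 2 ^ a * (∏ p ∈ R, p ^ e p) * ∏ q ∈ Q, q

theorem DD_le (e : ℕ → ℕ) (a : ℕ) (R Q : Finset ℕ) : DD e a R Q ≤ BB e a R Q := by
  unfold DD BB
  apply Nat.mul_le_mul_left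
  exact Finset.prod_le_prod' fun q _ => Nat.sub_le q 1

theorem step (P : Finset ℕ) (e : ℕ → ℕ) (a s2 u2 k : ℕ) (hs2 : Odd s2)
    (hP : ∀ p ∈ P, Odd p) (hP3 : ∀ p ∈ P, 3 ≤ p) (he : ∀ p ∈ P, e p % 4 ≠ 3)
    (he1 : ∀ p ∈ P, 1 ≤ e p)
    (heq : s2 * ∏ p ∈ P, sp p (e p) = 2 ^ a * ∏ p ∈ P, p ^ e p + u2 * ∏ p ∈ P, (p ^ e p + 1))
    (hus : u2 ≤ s2) (hk : P.card ≤ k) (hk2 : s2 * (P.card + 2) ≤ 2 ^ a * (2 * (k + 1)))
    (R Q : Finset ℕ) (hR : R ⊆ P) (hQ : Q ⊆ P) (hRQ : Disjoint R Q) (hRP : R ≠ P) :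
    (∃ q ∈ Q, q ^ e q ≤ 6 * k ^ 2 * DD e a R Q) ∨
      (∃ r ∈ P \ (R ∪ Q), r ≤ 6 * k ^ 2 * DD e a R Q) := by
  classical
  by_contra hcon
  push Not at hcon
  obtain ⟨hq, hr⟩ := hcon
  have hnv := nonvanish' P e a s2 u2 hs2 hP he he1 heq R Q hR hQ hRP
  have hk1 : 1 ≤ k := by
    by_contra hk0
    have : P.card = 0 := by omega
    rw [Finset.card_eq_zero] at this
    subst this
    exact hRP (Finset.subset_empty.1 hR)
  have hDpos : 0 < DD e a R Q := by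
    unfold DD
    apply Nat.mul_pos (Nat.mul_pos (by positivity) _) _
    · apply Finset.prod_pos
      intro p hp
      have := hP3 p (hR hp)
      positivity
    · apply Finset.prod_pos
      intro p hp
      have := hP3 p (hQ hp)
      omega
  set D := DD e a R Q with hD
  have hDr : (1 : ℝ) ≤ D := by exact_mod_cast hDpos
  have hkr : (1 : ℝ) ≤ k := by exact_mod_cast hk1
  set K : ℝ := 6 * (k : ℝ) ^ 2 * D with hKdef
  have hKcast : ((6 * k ^ 2 * D : ℕ) : ℝ) = K := by push_cast; rfl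
  have hkk : (k : ℝ) ≤ (k : ℝ) ^ 2 * D := by
    calc (k : ℝ) = (k : ℝ) * 1 * 1 := by ring
      _ ≤ (k : ℝ) * k * D := by gcongr
      _ = _ := by ring
  have hK1 : 1 ≤ K := by rw [hKdef]; nlinarith
  have hK0 : 0 < K := by linarith
  set U := P \ R with hU
  have hUk : U.card ≤ k := le_trans (Finset.card_le_card Finset.sdiff_subset) hk
  set m := U.card with hm
  have hmr : (m : ℝ) ≤ k := by exact_mod_cast hUk
  have hmK : (m : ℝ) < K := by rw [hKdef]; nlinarith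
  have hm0 : (0 : ℝ) ≤ m := Nat.cast_nonneg m
  set h : ℕ → ℝ := fun p => (sp p (e p) : ℝ) / (p : ℝ) ^ e p with hh
  set y : ℕ → ℝ := fun p => ((p : ℝ) ^ e p + 1) / (p : ℝ) ^ e p with hy
  set l : ℕ → ℝ := fun p => if p ∈ Q then (p : ℝ) / ((p : ℝ) - 1) else 1 with hl
  set P1 := ∏ p ∈ U, (h p / l p) with hP1
  set P2 := ∏ p ∈ U, y p with hP2
  have hK0' : 0 ≤ 1 / K := by positivity
  have hK1' : 1 / K ≤ 1 := by rw [div_le_one hK0]; exact hK1
  have hmemU : ∀ p ∈ U, p ∈ P ∧ (p ∈ Q ∨ p ∈ P \ (R ∪ Q)) := by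
    intro p hp
    rw [hU, Finset.mem_sdiff] at hp
    refine ⟨hp.1, ?_⟩
    by_cases hpQ : p ∈ Q
    · exact Or.inl hpQ
    · right
      rw [Finset.mem_sdiff, Finset.mem_union]
      exact ⟨hp.1, fun h => h.elim hp.2 hpQ⟩
  have hbig : ∀ p ∈ U, K < (p : ℝ) ^ e p := by
    intro p hp
    obtain ⟨hpP, h1 | h1⟩ := hmemU p hp
    · have := hq p h1
      rw [← hKcast]
      exact_mod_cast this
    · have h2 := hr p h1
      rw [← hKcast]
      have h3 : p ^ 1 ≤ p ^ e p := Nat.pow_le_pow_right (by have := hP3 p hpP; omega) (he1 p hpP)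
      rw [pow_one] at h3
      have h4 : 6 * k ^ 2 * D < p ^ e p := lt_of_lt_of_le h2 h3
      exact_mod_cast h4
  have hratio : ∀ p ∈ U, 1 - 1 / K ≤ h p / l p ∧ h p / l p ≤ 1 + 1 / K := by
    intro p hp
    obtain ⟨hpP, h1⟩ := hmemU p hp
    by_cases hpQ : p ∈ Q
    · simp only [hh, hl, hpQ, if_true]
      exact ratio_Q p (e p) K (hP3 p hpP) hK0 (hbig p hp)
    · rcases h1 with h1 | h1
      · exact absurd h1 hpQ
      · simp only [hh, hl, hpQ, if_false, div_one]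
        apply ratio_M p (e p) K (hP3 p hpP) (he1 p hpP) hK0
        have h2 := hr p h1
        rw [← hKcast]
        exact_mod_cast h2
  have hyU : ∀ p ∈ U, 1 ≤ y p ∧ y p ≤ 1 + 1 / K := by
    intro p hp
    have hpP := (hmemU p hp).1
    exact ⟨y_ge p (e p) (hP3 p hpP), y_le p (e p) K (hP3 p hpP) hK0 (le_of_lt (hbig p hp))⟩
  have hP1u : P1 ≤ (1 + 1 / K) ^ m := by
    rw [hP1, hm, ← Finset.prod_const]
    apply Finset.prod_le_prod
    · intro p hp
      have := (hratio p hp).1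
      linarith
    · intro p hp; exact (hratio p hp).2
  have hP1l : (1 - 1 / K) ^ m ≤ P1 := by
    rw [hP1, hm, ← Finset.prod_const]
    apply Finset.prod_le_prod
    · intro p hp; linarith
    · intro p hp; exact (hratio p hp).1
  have hP2u : P2 ≤ (1 + 1 / K) ^ m := by
    rw [hP2, hm, ← Finset.prod_const]
    apply Finset.prod_le_prod
    · intro p hp
      have := (hyU p hp).1
      linarith
    · intro p hp; exact (hyU p hp).2
  have hP2l : 1 ≤ P2 := by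
    have : ∏ p ∈ U, (1 : ℝ) ≤ P2 := by
      rw [hP2]
      apply Finset.prod_le_prod
      · intro p _; norm_num
      · intro p hp; exact (hyU p hp).1
    simpa using this
  set c := (m : ℝ) / (K - m) with hc
  have hc1 := pow_upper m K hmK
  have hc2 := pow_lower m K hmK hK1
  -- `H` and `g`
  have hα : (0 : ℝ) < 2 ^ a := by positivity
  set H : ℝ := ((s2 : ℝ) / 2 ^ a) * (∏ p ∈ R, h p) * ∏ q ∈ Q, ((q : ℝ) / ((q : ℝ) - 1)) with hH
  set g : ℝ := ((u2 : ℝ) / 2 ^ a) * ∏ p ∈ R, y p with hg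
  have hRpos : ∀ p ∈ P, (0 : ℝ) < p := by
    intro p hp
    have := hP3 p hp
    have : 0 < p := by omega
    exact_mod_cast this
  have hhpos : ∀ p ∈ P, 0 < h p := by
    intro p hp
    have h1 := hRpos p hp
    have h2 : (0 : ℝ) < sp p (e p) := by exact_mod_cast sp_pos p (e p)
    simp only [hh]
    positivity
  have hypos : ∀ p ∈ P, 1 ≤ y p := fun p hp => y_ge p (e p) (hP3 p hp)
  have hq1 : ∀ p ∈ P, 1 ≤ (p : ℝ) / ((p : ℝ) - 1) := by
    intro p hp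
    have := hP3 p hp
    have h3 : (3 : ℝ) ≤ p := by exact_mod_cast this
    rw [le_div_iff₀ (by linarith)]
    linarith
  have hHnn : 0 ≤ H := by
    rw [hH]
    apply mul_nonneg (mul_nonneg (by positivity) _) _
    · exact Finset.prod_nonneg fun p hp => le_of_lt (hhpos p (hR hp))
    · exact Finset.prod_nonneg fun p hp => le_trans zero_le_one (hq1 p (hQ hp))
  have hgnn : 0 ≤ g := by
    rw [hg]
    apply mul_nonneg (by positivity)
    exact Finset.prod_nonneg fun p hp => le_trans zero_le_one (hypos p (hR hp))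
  -- bounds
  have hHk : H ≤ (k : ℝ) + 1 := by
    have h1 : (∏ p ∈ R, h p) * ∏ q ∈ Q, ((q : ℝ) / ((q : ℝ) - 1))
        ≤ ∏ p ∈ P, ((p : ℝ) / ((p : ℝ) - 1)) := by
      calc (∏ p ∈ R, h p) * ∏ q ∈ Q, ((q : ℝ) / ((q : ℝ) - 1))
          ≤ (∏ p ∈ R, ((p : ℝ) / ((p : ℝ) - 1))) * ∏ q ∈ Q, ((q : ℝ) / ((q : ℝ) - 1)) := by
            apply mul_le_mul_of_nonneg_right
            · apply Finset.prod_le_prod
              · intro p hp; exact le_of_lt (hhpos p (hR hp))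
              · intro p hp; exact h_le p (e p) (hP3 p (hR hp))
            · exact Finset.prod_nonneg fun p hp => le_trans zero_le_one (hq1 p (hQ hp))
        _ = ∏ p ∈ R ∪ Q, ((p : ℝ) / ((p : ℝ) - 1)) := (Finset.prod_union hRQ).symm
        _ ≤ ∏ p ∈ P, ((p : ℝ) / ((p : ℝ) - 1)) := by
            have hsub : R ∪ Q ⊆ P := Finset.union_subset hR hQ
            rw [← Finset.prod_sdiff hsub]
            have h2 : 1 ≤ ∏ p ∈ P \ (R ∪ Q), ((p : ℝ) / ((p : ℝ) - 1)) := by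
              have : ∏ p ∈ P \ (R ∪ Q), (1 : ℝ) ≤ ∏ p ∈ P \ (R ∪ Q), ((p : ℝ) / ((p : ℝ) - 1)) := by
                apply Finset.prod_le_prod
                · intro p _; norm_num
                · intro p hp; exact hq1 p (Finset.mem_sdiff.1 hp).1
              simpa using this
            have h3 : 0 ≤ ∏ p ∈ R ∪ Q, ((p : ℝ) / ((p : ℝ) - 1)) :=
              Finset.prod_nonneg fun p hp => le_trans zero_le_one (hq1 p (hsub hp))
            nlinarith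
    have h2 := prod_ratio_le P.card P rfl hP3
    have h3 : (s2 : ℝ) * ((P.card : ℝ) + 2) ≤ 2 ^ a * (2 * ((k : ℝ) + 1)) := by exact_mod_cast hk2
    calc H = ((s2 : ℝ) / 2 ^ a) * ((∏ p ∈ R, h p) * ∏ q ∈ Q, ((q : ℝ) / ((q : ℝ) - 1))) := by
          rw [hH]; ring
      _ ≤ ((s2 : ℝ) / 2 ^ a) * (((P.card : ℝ) + 2) / 2) := by
          apply mul_le_mul_of_nonneg_left (le_trans h1 h2)
          positivity
      _ = ((s2 : ℝ) * ((P.card : ℝ) + 2)) / (2 * 2 ^ a) := by field_simp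
      _ ≤ (2 ^ a * (2 * ((k : ℝ) + 1))) / (2 * 2 ^ a) := by gcongr
      _ = (k : ℝ) + 1 := by field_simp
  have hgH : g ≤ H := by
    have h1 : ∏ p ∈ R, y p ≤ ∏ p ∈ R, h p := by
      apply Finset.prod_le_prod
      · intro p hp; exact le_trans zero_le_one (hypos p (hR hp))
      · intro p hp; exact y_le_h p (e p) (hP3 p (hR hp)) (he1 p (hR hp))
    have h2 : 1 ≤ ∏ q ∈ Q, ((q : ℝ) / ((q : ℝ) - 1)) := by
      have : ∏ p ∈ Q, (1 : ℝ) ≤ ∏ p ∈ Q, ((p : ℝ) / ((p : ℝ) - 1)) := by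
        apply Finset.prod_le_prod
        · intro p _; norm_num
        · intro p hp; exact hq1 p (hQ hp)
      simpa using this
    have h3 : (u2 : ℝ) / 2 ^ a ≤ (s2 : ℝ) / 2 ^ a := by
      have : (u2 : ℝ) ≤ s2 := by exact_mod_cast hus
      gcongr
    have h4 : 0 ≤ ∏ p ∈ R, y p := Finset.prod_nonneg fun p hp => le_trans zero_le_one (hypos p (hR hp))
    calc g ≤ ((s2 : ℝ) / 2 ^ a) * ∏ p ∈ R, h p := by
          rw [hg]
          exact mul_le_mul h3 h1 h4 (by positivity)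
      _ = ((s2 : ℝ) / 2 ^ a) * (∏ p ∈ R, h p) * 1 := by ring
      _ ≤ H := by
          rw [hH]
          apply mul_le_mul_of_nonneg_left h2
          apply mul_nonneg (by positivity)
          exact Finset.prod_nonneg fun p hp => le_of_lt (hhpos p (hR hp))
  -- the equation
  have hQU : Q ⊆ U := by
    intro q hq'
    rw [hU, Finset.mem_sdiff]
    exact ⟨hQ hq', fun h => Finset.disjoint_left.1 hRQ h hq'⟩
  have hlprod : ∏ p ∈ U, l p = ∏ q ∈ Q, ((q : ℝ) / ((q : ℝ) - 1)) := by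
    rw [← Finset.prod_subset hQU (f := l)]
    · apply Finset.prod_congr rfl
      intro p hp
      simp only [hl, hp, if_true]
    · intro p _ hp
      simp only [hl, hp, if_false]
  have hlne : ∏ q ∈ Q, ((q : ℝ) / ((q : ℝ) - 1)) ≠ 0 := by
    apply ne_of_gt
    apply Finset.prod_pos
    intro p hp
    have := hq1 p (hQ hp)
    linarith
  have hApos : ∀ S : Finset ℕ, S ⊆ P → (0 : ℝ) < ∏ p ∈ S, (p : ℝ) ^ e p := by
    intro S hS
    apply Finset.prod_pos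
    intro p hp
    have := hRpos p (hS hp)
    positivity
  have hEq : H * P1 - g * P2 = 1 := by
    have e1 : H * P1 = ((s2 : ℝ) / 2 ^ a) * ∏ p ∈ P, h p := by
      have : P1 = (∏ p ∈ U, h p) / ∏ q ∈ Q, ((q : ℝ) / ((q : ℝ) - 1)) := by
        rw [hP1, Finset.prod_div_distrib, hlprod]
      rw [this, hH, ← Finset.prod_sdiff hR, ← hU]
      field_simp
    have e2 : g * P2 = ((u2 : ℝ) / 2 ^ a) * ∏ p ∈ P, y p := by
      rw [hg, hP2, ← Finset.prod_sdiff hR]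
      ring
    have e3 : (s2 : ℝ) * ∏ p ∈ P, (sp p (e p) : ℝ) = 2 ^ a * ∏ p ∈ P, (p : ℝ) ^ e p
        + (u2 : ℝ) * ∏ p ∈ P, ((p : ℝ) ^ e p + 1) := by
      exact_mod_cast heq
    have e4 : ∏ p ∈ P, h p = (∏ p ∈ P, (sp p (e p) : ℝ)) / ∏ p ∈ P, (p : ℝ) ^ e p := by
      simp only [hh]; rw [Finset.prod_div_distrib]
    have e5 : ∏ p ∈ P, y p = (∏ p ∈ P, ((p : ℝ) ^ e p + 1)) / ∏ p ∈ P, (p : ℝ) ^ e p := by
      simp only [hy]; rw [Finset.prod_div_distrib]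
    have hA := hApos P (Finset.Subset.refl _)
    rw [e1, e2, e4, e5]
    have hA' := ne_of_gt hA
    have hα' : (2 : ℝ) ^ a ≠ 0 := ne_of_gt hα
    rw [div_mul_div_comm, div_mul_div_comm, ← sub_div, div_eq_one_iff_eq (mul_ne_zero hα' hA')]
    linarith
  have hcore := core H g P1 P2 c hHnn hgnn hEq (by linarith) (by linarith) (by linarith) (by linarith)
  -- integrality
  have hD' : (D : ℝ) = 2 ^ a * (∏ p ∈ R, (p : ℝ) ^ e p) * ∏ q ∈ Q, ((q : ℝ) - 1) := by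
    rw [hD]
    unfold DD
    push_cast
    congr 1
    apply Finset.prod_congr rfl
    intro q hq'
    have := hP3 q (hQ hq')
    rw [Nat.cast_sub (by omega)]
    simp
  have hZ : (H - g - 1) * D = (((s2 * (∏ p ∈ R, sp p (e p)) * ∏ q ∈ Q, q : ℕ) : ℤ)
      - (((2 ^ a * ∏ p ∈ R, p ^ e p + u2 * ∏ p ∈ R, (p ^ e p + 1)) * ∏ q ∈ Q, (q - 1) : ℕ) : ℤ) : ℤ) := by
    have e4 : ∏ p ∈ R, h p = (∏ p ∈ R, (sp p (e p) : ℝ)) / ∏ p ∈ R, (p : ℝ) ^ e p := by
      simp only [hh]; rw [Finset.prod_div_distrib]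
    have e5 : ∏ p ∈ R, y p = (∏ p ∈ R, ((p : ℝ) ^ e p + 1)) / ∏ p ∈ R, (p : ℝ) ^ e p := by
      simp only [hy]; rw [Finset.prod_div_distrib]
    have hA := ne_of_gt (hApos R hR)
    have hQ1 : ∏ q ∈ Q, ((q : ℝ) - 1) ≠ 0 := by
      apply ne_of_gt
      apply Finset.prod_pos
      intro p hp
      have := hP3 p (hQ hp)
      have h3 : (3 : ℝ) ≤ p := by exact_mod_cast this
      linarith
    have e6 : ((∏ q ∈ Q, (q - 1) : ℕ) : ℝ) = ∏ q ∈ Q, ((q : ℝ) - 1) := by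
      push_cast
      apply Finset.prod_congr rfl
      intro q hq'
      have := hP3 q (hQ hq')
      rw [Nat.cast_sub (by omega)]
      simp
    have e7 : ((((s2 * (∏ p ∈ R, sp p (e p)) * ∏ q ∈ Q, q : ℕ) : ℤ)
      - (((2 ^ a * ∏ p ∈ R, p ^ e p + u2 * ∏ p ∈ R, (p ^ e p + 1)) * ∏ q ∈ Q, (q - 1) : ℕ) : ℤ) : ℤ) : ℝ)
        = (s2 : ℝ) * (∏ p ∈ R, (sp p (e p) : ℝ)) * ∏ q ∈ Q, (q : ℝ)
        - (2 ^ a * ∏ p ∈ R, (p : ℝ) ^ e p + (u2 : ℝ) * ∏ p ∈ R, ((p : ℝ) ^ e p + 1))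
          * ∏ q ∈ Q, ((q : ℝ) - 1) := by
      rw [← e6]
      push_cast
      rfl
    rw [e7, hH, hg, e4, e5, hD', Finset.prod_div_distrib]
    have hα' : (2 : ℝ) ^ a ≠ 0 := ne_of_gt hα
    field_simp
    ring
  have hZ1 : 1 ≤ |(H - g - 1) * D| := by
    rw [hZ]
    have hne : (((s2 * (∏ p ∈ R, sp p (e p)) * ∏ q ∈ Q, q : ℕ) : ℤ)
      - (((2 ^ a * ∏ p ∈ R, p ^ e p + u2 * ∏ p ∈ R, (p ^ e p + 1)) * ∏ q ∈ Q, (q - 1) : ℕ) : ℤ) : ℤ) ≠ 0 := by
      rw [sub_ne_zero]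
      exact_mod_cast hnv
    have := Int.one_le_abs hne
    exact_mod_cast this
  rw [abs_mul, abs_of_nonneg (by linarith : (0 : ℝ) ≤ D)] at hZ1
  have hcub : c ≤ (k : ℝ) / (5 * (k : ℝ) ^ 2 * D) := by
    rw [hc]
    apply div_le_div₀ (by linarith) hmr (by positivity)
    rw [hKdef]
    nlinarith
  have hcub2 : c * D ≤ 1 / (5 * k) := by
    calc c * D ≤ (k : ℝ) / (5 * (k : ℝ) ^ 2 * D) * D := by gcongr
      _ = 1 / (5 * k) := by
        have hDne : (D : ℝ) ≠ 0 := ne_of_gt (by linarith)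
        have hk0 : (k : ℝ) ≠ 0 := ne_of_gt (by linarith)
        field_simp
  have hcnn : 0 ≤ c * D := by
    have : 0 ≤ c := by rw [hc]; apply div_nonneg hm0; linarith
    positivity
  have hfin : |H - g - 1| * D ≤ (2 * ((k : ℝ) + 1)) * (1 / (5 * k)) := by
    calc |H - g - 1| * D ≤ ((H + g) * c) * D := by gcongr
      _ = (H + g) * (c * D) := by ring
      _ ≤ (2 * ((k : ℝ) + 1)) * (1 / (5 * k)) := by
        apply mul_le_mul _ hcub2 hcnn (by positivity)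
        linarith
  have hlast : (2 * ((k : ℝ) + 1)) * (1 / (5 * k)) < 1 := by
    rw [mul_one_div, div_lt_one (by positivity)]
    linarith
  linarith

end Pool.MP_f7abb8_nt.Bound
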