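import Pool.Agent.H.MP_f7abb8_nt.Bound.Main1
import Pool.Agent.H.MP_f7abb8_nt.Sums

set_option autoImplicit false

namespace Pool.MP_f7abb8_nt.Bound

open Finset

theorem descent (P : Finset ℕ) (e : ℕ → ℕ) (a s2 u2 k : ℕ) (hs2 : Odd s2)
    (hP : ∀ p ∈ P, Odd p) (hP3 : ∀ p ∈ P, 3 ≤ p) (he : ∀ p ∈ P, e p % 4 ≠ 3)
    (he1 : ∀ p ∈ P, 1 ≤ e p)
    (heq : s2 * ∏ p ∈ P, sp p (e p) = 2 ^ a * ∏ p ∈ P, p ^ e p + u2 * ∏ p ∈ P, (p ^ e p + 1))
    (hus : u2 ≤ s2) (hk : P.card ≤ k) (hk2 : s2 * (P.card + 2) ≤ 2 ^ a * (2 * (k + 1))) :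
    ∀ (t : ℕ) (R Q : Finset ℕ), R ⊆ P → Q ⊆ P → Disjoint R Q →
      2 * (P \ (R ∪ Q)).card + Q.card = t →
      2 ^ a * ∏ p ∈ P, p ^ e p ≤ (6 * k ^ 2) ^ (2 ^ t - 1) * (BB e a R Q) ^ (2 ^ t) := by
  classical
  intro t
  induction t with
  | zero =>
    intro R Q hR hQ hRQ ht
    have h1 : (P \ (R ∪ Q)).card = 0 := by omega
    have h2 : Q.card = 0 := by omega
    rw [Finset.card_eq_zero] at h1 h2
    subst h2
    rw [Finset.union_empty, Finset.sdiff_eq_empty_iff_subset] at h1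
    have h3 : R = P := Finset.Subset.antisymm hR h1
    subst h3
    simp [BB]
  | succ t ih =>
    intro R Q hR hQ hRQ ht
    have hRP : R ≠ P := by
      rintro rfl
      have h1 : Q = ∅ := by
        rw [Finset.eq_empty_iff_forall_notMem]
        intro q hq
        exact Finset.disjoint_left.1 hRQ (hQ hq) hq
      subst h1
      simp at ht
    have hk1 : 1 ≤ k := by
      by_contra hk0
      have : P.card = 0 := by omega
      rw [Finset.card_eq_zero] at this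
      subst this
      exact hRP (Finset.subset_empty.1 hR)
    have hkk : 1 ≤ 6 * k ^ 2 := by
      have : 1 ≤ k ^ 2 := Nat.one_le_pow _ _ hk1
      omega
    have hDB := DD_le e a R Q
    -- the common ending
    have hend : ∀ R' Q' : Finset ℕ, R' ⊆ P → Q' ⊆ P → Disjoint R' Q' →
        2 * (P \ (R' ∪ Q')).card + Q'.card = t →
        BB e a R' Q' ≤ BB e a R Q * (6 * k ^ 2 * DD e a R Q) →
        2 ^ a * ∏ p ∈ P, p ^ e p ≤ (6 * k ^ 2) ^ (2 ^ (t + 1) - 1) * (BB e a R Q) ^ (2 ^ (t + 1)) := by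
      intro R' Q' hR' hQ' hd' ht' hB'
      have h1 := ih R' Q' hR' hQ' hd' ht'
      have h2 : BB e a R' Q' ≤ (6 * k ^ 2) * (BB e a R Q) ^ 2 := by
        calc BB e a R' Q' ≤ BB e a R Q * (6 * k ^ 2 * DD e a R Q) := hB'
          _ ≤ BB e a R Q * (6 * k ^ 2 * BB e a R Q) := by gcongr
          _ = (6 * k ^ 2) * (BB e a R Q) ^ 2 := by ring
      calc 2 ^ a * ∏ p ∈ P, p ^ e p ≤ (6 * k ^ 2) ^ (2 ^ t - 1) * (BB e a R' Q') ^ (2 ^ t) := h1
        _ ≤ (6 * k ^ 2) ^ (2 ^ t - 1) * ((6 * k ^ 2) * (BB e a R Q) ^ 2) ^ (2 ^ t) := by gcongr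
        _ = (6 * k ^ 2) ^ (2 ^ t - 1 + 2 ^ t) * (BB e a R Q) ^ (2 * 2 ^ t) := by
          rw [mul_pow, ← pow_mul, pow_add]; ring
        _ = (6 * k ^ 2) ^ (2 ^ (t + 1) - 1) * (BB e a R Q) ^ (2 ^ (t + 1)) := by
          have : 1 ≤ 2 ^ t := Nat.one_le_two_pow
          have e1 : 2 ^ t - 1 + 2 ^ t = 2 ^ (t + 1) - 1 := by rw [pow_succ]; omega
          have e2 : 2 * 2 ^ t = 2 ^ (t + 1) := by rw [pow_succ]; ring
          rw [e1, e2]
    rcases step P e a s2 u2 k hs2 hP hP3 he he1 heq hus hk hk2 R Q hR hQ hRQ hRP with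
      ⟨q, hq, hqK⟩ | ⟨r, hr, hrK⟩
    · have hqR : q ∉ R := fun h => Finset.disjoint_left.1 hRQ h hq
      apply hend (insert q R) (Q.erase q)
      · exact Finset.insert_subset (hQ hq) hR
      · exact (Finset.erase_subset _ _).trans hQ
      · rw [Finset.disjoint_insert_left]
        refine ⟨Finset.notMem_erase q Q, ?_⟩
        exact Finset.disjoint_of_subset_right (Finset.erase_subset _ _) hRQ
      · have e1 : insert q R ∪ Q.erase q = R ∪ Q := by
          ext x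
          simp only [Finset.mem_union, Finset.mem_insert, Finset.mem_erase]
          constructor
          · rintro ((rfl | h) | ⟨_, h⟩)
            · exact Or.inr hq
            · exact Or.inl h
            · exact Or.inr h
          · rintro (h | h)
            · exact Or.inl (Or.inr h)
            · by_cases hx : x = q
              · exact Or.inl (Or.inl hx)
              · exact Or.inr ⟨hx, h⟩
        rw [e1, Finset.card_erase_of_mem hq]
        have : 1 ≤ Q.card := Finset.card_pos.2 ⟨q, hq⟩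
        omega
      · unfold BB
        rw [Finset.prod_insert hqR]
        have h3 : ∏ x ∈ Q.erase q, x ≤ ∏ x ∈ Q, x := by
          apply Finset.prod_le_prod_of_subset_of_one_le' (Finset.erase_subset _ _)
          intro x hx _
          have := hP3 x (hQ hx)
          omega
        calc 2 ^ a * (q ^ e q * ∏ p ∈ R, p ^ e p) * ∏ x ∈ Q.erase q, x
            ≤ 2 ^ a * ((6 * k ^ 2 * DD e a R Q) * ∏ p ∈ R, p ^ e p) * ∏ x ∈ Q, x := by gcongr
          _ = 2 ^ a * (∏ p ∈ R, p ^ e p) * (∏ x ∈ Q, x) * (6 * k ^ 2 * DD e a R Q) := by ring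
    · rw [Finset.mem_sdiff, Finset.mem_union, not_or] at hr
      apply hend R (insert r Q) hR
      · exact Finset.insert_subset hr.1 hQ
      · rw [Finset.disjoint_insert_right]
        exact ⟨hr.2.1, hRQ⟩
      · have e1 : P \ (R ∪ insert r Q) = (P \ (R ∪ Q)).erase r := by
          ext x
          simp only [Finset.mem_sdiff, Finset.mem_union, Finset.mem_insert, Finset.mem_erase]
          tauto
        have hrm : r ∈ P \ (R ∪ Q) := by
          rw [Finset.mem_sdiff, Finset.mem_union, not_or]; exact hr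
        rw [e1, Finset.card_erase_of_mem hrm, Finset.card_insert_of_notMem hr.2.2]
        have : 1 ≤ (P \ (R ∪ Q)).card := Finset.card_pos.2 ⟨r, hrm⟩
        omega
      · unfold BB
        rw [Finset.prod_insert hr.2.2]
        calc 2 ^ a * (∏ p ∈ R, p ^ e p) * (r * ∏ x ∈ Q, x)
            ≤ 2 ^ a * (∏ p ∈ R, p ^ e p) * ((6 * k ^ 2 * DD e a R Q) * ∏ x ∈ Q, x) := by gcongr
          _ = _ := by ring

theorem engine (P : Finset ℕ) (e : ℕ → ℕ) (a s2 u2 k : ℕ) (hs2 : Odd s2)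
    (hP : ∀ p ∈ P, Odd p) (hP3 : ∀ p ∈ P, 3 ≤ p) (he : ∀ p ∈ P, e p % 4 ≠ 3)
    (he1 : ∀ p ∈ P, 1 ≤ e p)
    (heq : s2 * ∏ p ∈ P, sp p (e p) = 2 ^ a * ∏ p ∈ P, p ^ e p + u2 * ∏ p ∈ P, (p ^ e p + 1))
    (hus : u2 ≤ s2) (hk : P.card ≤ k) (hk1 : 1 ≤ k)
    (hk2 : s2 * (P.card + 2) ≤ 2 ^ a * (2 * (k + 1))) :
    2 ^ a * ∏ p ∈ P, p ^ e p < (6 * 2 ^ a * k ^ 2) ^ (4 ^ k) := by
  classical
  have h := descent P e a s2 u2 k hs2 hP hP3 he he1 heq hus hk hk2 (2 * P.card) ∅ ∅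
    (Finset.empty_subset _) (Finset.empty_subset _) (Finset.disjoint_empty_left _) (by simp)
  have hB : BB e a ∅ ∅ = 2 ^ a := by simp [BB]
  rw [hB] at h
  have hk6 : 1 < 6 * k ^ 2 := by
    have : 1 ≤ k ^ 2 := Nat.one_le_pow _ _ hk1
    omega
  have h1 : (6 * k ^ 2) ^ (2 ^ (2 * P.card) - 1) < (6 * k ^ 2) ^ (2 ^ (2 * P.card)) := by
    apply Nat.pow_lt_pow_right hk6
    have : 1 ≤ 2 ^ (2 * P.card) := Nat.one_le_two_pow
    omega
  have h2 : 0 < (2 ^ a) ^ (2 ^ (2 * P.card)) := by positivity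
  have h3 : 2 ^ (2 * P.card) ≤ 4 ^ k := by
    rw [pow_mul]
    exact Nat.pow_le_pow_right (by norm_num) hk
  calc 2 ^ a * ∏ p ∈ P, p ^ e p ≤ (6 * k ^ 2) ^ (2 ^ (2 * P.card) - 1) * (2 ^ a) ^ (2 ^ (2 * P.card)) := h
    _ < (6 * k ^ 2) ^ (2 ^ (2 * P.card)) * (2 ^ a) ^ (2 ^ (2 * P.card)) :=
        Nat.mul_lt_mul_of_pos_right h1 h2
    _ = (6 * 2 ^ a * k ^ 2) ^ (2 ^ (2 * P.card)) := by rw [← mul_pow]; ring
    _ ≤ (6 * 2 ^ a * k ^ 2) ^ (4 ^ k) := by
        apply Nat.pow_le_pow_right _ h3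
        have : 0 < 2 ^ a := by positivity
        have : 0 < k ^ 2 := by positivity
        positivity

/-- `σ` and `σ*` as products over the primes. -/
theorem sg_prod (n : ℕ) (hn : n ≠ 0) : NU.sg n = ∏ p ∈ n.primeFactors, sp p (n.factorization p) := by
  have h := Nat.multiplicative_factorization NU.sg (fun x y hxy => NU.sg_mul hxy) (by simp [NU.sg]) hn
  rw [h, Finsupp.prod, Nat.support_factorization]
  apply Finset.prod_congr rfl
  intro p hp
  have hpp := Nat.prime_of_mem_primeFactors hp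
  unfold NU.sg sp
  rw [Nat.sum_divisors_prime_pow hpp]

theorem us_prod (n : ℕ) (hn : n ≠ 0) :
    NU.us n = ∏ p ∈ n.primeFactors, (p ^ n.factorization p + 1) := by
  have h := Nat.multiplicative_factorization NU.us (fun x y hxy => NU.us_mul hxy)
    (by simp [NU.us, Finset.filter_singleton]) hn
  rw [h, Finsupp.prod, Nat.support_factorization]
  apply Finset.prod_congr rfl
  intro p hp
  have hpp := Nat.prime_of_mem_primeFactors hp
  have h1 : 0 < n.factorization p := hpp.factorization_pos_of_dvd hn (Nat.dvd_of_mem_primeFactors hp)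
  obtain ⟨k, hk⟩ : ∃ k, n.factorization p = k + 1 := ⟨n.factorization p - 1, by omega⟩
  rw [hk, NU.us_prime_pow hpp]
  ring

end Pool.MP_f7abb8_nt.Bound
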