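import Pool.Agent.H.MP_f7abb8_nt.Bound.Main2

set_option autoImplicit false

namespace Pool.MP_f7abb8_nt.Bound

open Finset

/-- If `4 ∤ n`, no odd prime has exponent `3 mod 4` in a nonunitary perfect number `n`. -/
theorem exps_auto (n : ℕ) (hn : 0 < n) (hperf : NU.ns n = n) (h4 : ¬ 4 ∣ n) :
    ∀ p ∈ n.primeFactors, p ≠ 2 → n.factorization p % 4 ≠ 3 := by
  classical
  intro q hq hq2 h3
  have hn0 : n ≠ 0 := by omega
  have heq := NU.sg_eq n hn0
  rw [hperf, sg_prod n hn0, us_prod n hn0] at heq
  have hqp := Nat.prime_of_mem_primeFactors hq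
  have hqo : Odd q := hqp.odd_of_ne_two hq2
  have hq3 : 3 ≤ q := by
    have := hqp.two_le
    omega
  -- `4 ∣ σ(q^e)`
  have h4s : 4 ∣ sp q (n.factorization q) := by
    obtain ⟨m, hm⟩ : ∃ m, n.factorization q = 4 * m + 3 := ⟨n.factorization q / 4, by omega⟩
    rw [hm]
    unfold sp
    rw [show 4 * m + 3 + 1 = 2 * (2 * (m + 1)) by ring, sum_double, sum_double]
    have h1 : 2 ∣ q + 1 := by rcases hqo with ⟨r, hr⟩; exact ⟨r + 1, by omega⟩
    have h2 : 2 ∣ q ^ 2 + 1 := by
      rcases hqo with ⟨r, hr⟩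
      exact ⟨2 * r ^ 2 + 2 * r + 1, by rw [hr]; ring⟩
    rw [← mul_assoc]
    exact Dvd.dvd.mul_right (Nat.mul_dvd_mul h1 h2) _
  have h4S : 4 ∣ ∏ p ∈ n.primeFactors, sp p (n.factorization p) :=
    h4s.trans (Finset.dvd_prod_of_mem _ hq)
  have hfac : ∏ p ∈ n.primeFactors, p ^ n.factorization p = n := Nat.prod_factorization_pow_eq_self hn0
  -- every odd prime contributes a factor 2 to `σ*`
  have h2q : 2 ∣ q ^ n.factorization q + 1 := by
    have : Odd (q ^ n.factorization q) := hqo.pow
    rcases this with ⟨r, hr⟩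
    exact ⟨r + 1, by omega⟩
  rcases Nat.even_or_odd n with hev | hodd
  · -- `n ≡ 2 mod 4`
    have h2n : 2 ∣ n := hev.two_dvd
    have h2mem : 2 ∈ n.primeFactors := Nat.mem_primeFactors.2 ⟨Nat.prime_two, h2n, hn0⟩
    have ha : n.factorization 2 = 1 := by
      have h1 : 0 < n.factorization 2 := Nat.prime_two.factorization_pos_of_dvd hn0 h2n
      have h2 : n.factorization 2 < 2 := by
        by_contra hge
        apply h4
        have : 2 ^ 2 ∣ n := (Nat.prime_two.pow_dvd_iff_le_factorization hn0).2 (by omega)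
        simpa using this
      omega
    set P := n.primeFactors.erase 2 with hP
    have hqP : q ∈ P := Finset.mem_erase.2 ⟨hq2, hq⟩
    rw [← Finset.mul_prod_erase _ _ h2mem, ← Finset.mul_prod_erase (n.primeFactors) (fun p => p ^ n.factorization p + 1) h2mem, ← hP, ha] at heq
    have hs2 : sp 2 1 = 3 := by decide
    rw [hs2] at heq
    have hfac2 : n = 2 * ∏ p ∈ P, p ^ n.factorization p := by
      rw [← Finset.mul_prod_erase _ _ h2mem, ← hP, ha] at hfac
      simpa using hfac.symm
    have hoddA : Odd (∏ p ∈ P, p ^ n.factorization p) := by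
      apply Finset.prod_induction _ (fun n => Odd n)
      · intro a b ha hb; exact ha.mul hb
      · exact odd_one
      · intro p hp
        have h1 := Finset.mem_erase.1 hp
        exact ((Nat.prime_of_mem_primeFactors h1.2).odd_of_ne_two h1.1).pow
    have h4S' : 4 ∣ ∏ p ∈ P, sp p (n.factorization p) := h4s.trans (Finset.dvd_prod_of_mem _ hqP)
    -- `P = {q}`
    have hPq : P.erase q = ∅ := by
      by_contra hne
      obtain ⟨r, hr⟩ := Finset.nonempty_iff_ne_empty.2 hne
      have hr' := Finset.mem_erase.1 hr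
      have hr'' := Finset.mem_erase.1 hr'.2
      have hro : Odd r := (Nat.prime_of_mem_primeFactors hr''.2).odd_of_ne_two hr''.1
      have h2r : 2 ∣ r ^ n.factorization r + 1 := by
        have : Odd (r ^ n.factorization r) := hro.pow
        rcases this with ⟨s, hs⟩
        exact ⟨s + 1, by omega⟩
      have h4U : 4 ∣ ∏ p ∈ P, (p ^ n.factorization p + 1) := by
        rw [← Finset.mul_prod_erase P (fun p => p ^ n.factorization p + 1) hqP]
        exact Nat.mul_dvd_mul h2q (h2r.trans
          (Finset.dvd_prod_of_mem (fun p => p ^ n.factorization p + 1) hr))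
      have hoa := Nat.odd_iff.1 hoddA
      set A := ∏ p ∈ P, p ^ n.factorization p
      set S := ∏ p ∈ P, sp p (n.factorization p)
      set U := ∏ p ∈ P, (p ^ n.factorization p + 1)
      obtain ⟨S', hS'⟩ := h4S'
      obtain ⟨U', hU'⟩ := h4U
      rw [hS', hU'] at heq
      omega
    have hPq1 : P = {q} := by
      rw [← Finset.insert_erase hqP, hPq]
      simp
    rw [hPq1] at heq hfac2
    simp only [Finset.prod_singleton] at heq hfac2
    set X := q ^ n.factorization q with hX
    have hg := sp_geom q (n.factorization q) (by omega)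
    rw [pow_succ, ← hX] at hg
    obtain ⟨q', rfl⟩ : ∃ q', q = q' + 3 := ⟨q - 3, by omega⟩
    have e1 : q' + 3 - 1 = q' + 2 := by omega
    rw [e1] at hg
    have hXpos : 0 < X := by rw [hX]; positivity
    have h5 : 3 * sp (q' + 3) (n.factorization (q' + 3)) = 5 * X + 3 := by omega
    have h6 : (q' + 2) * (5 * X + 3) + 3 = 3 * (X * (q' + 3)) := by
      rw [← h5, ← hg]; ring
    nlinarith
  · -- `n` odd
    have h2U : 2 ∣ ∏ p ∈ n.primeFactors, (p ^ n.factorization p + 1) :=
      h2q.trans (Finset.dvd_prod_of_mem (fun p => p ^ n.factorization p + 1) hq)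
    have hoa := Nat.odd_iff.1 hodd
    omega

theorem main (n : ℕ) (hn : 0 < n) (hperf : NU.ns n = n)
    (hexp : ∀ p ∈ n.primeFactors, p ≠ 2 → n.factorization p % 4 ≠ 3) :
    n < (6 * 2 ^ n.factorization 2 * n.primeFactors.card ^ 2) ^ (4 ^ n.primeFactors.card) := by
  classical
  have hn0 : n ≠ 0 := by omega
  have heq := NU.sg_eq n hn0
  rw [hperf, sg_prod n hn0, us_prod n hn0] at heq
  have hfac : ∏ p ∈ n.primeFactors, p ^ n.factorization p = n := Nat.prod_factorization_pow_eq_self hn0
  have hn1 : n ≠ 1 := by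
    rintro rfl
    simp [NU.ns, Finset.filter_singleton] at hperf
  have hk1 : 1 ≤ n.primeFactors.card := by
    rw [Nat.one_le_iff_ne_zero, Ne, Finset.card_eq_zero, Nat.primeFactors_eq_empty]
    rintro (h | h) <;> omega
  set P := n.primeFactors.erase 2 with hP
  have hPmem : ∀ p ∈ P, p.Prime ∧ p ≠ 2 ∧ p ∈ n.primeFactors := by
    intro p hp
    have h1 := Finset.mem_erase.1 hp
    exact ⟨Nat.prime_of_mem_primeFactors h1.2, h1.1, h1.2⟩
  have hPodd : ∀ p ∈ P, Odd p := fun p hp => (hPmem p hp).1.odd_of_ne_two (hPmem p hp).2.1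
  have hP3 : ∀ p ∈ P, 3 ≤ p := by
    intro p hp
    have h1 := (hPmem p hp).1.two_le
    have h2 := (hPmem p hp).2.1
    omega
  have hPe : ∀ p ∈ P, n.factorization p % 4 ≠ 3 := fun p hp =>
    hexp p (hPmem p hp).2.2 (hPmem p hp).2.1
  have hPe1 : ∀ p ∈ P, 1 ≤ n.factorization p := by
    intro p hp
    exact (hPmem p hp).1.factorization_pos_of_dvd hn0 (Nat.dvd_of_mem_primeFactors (hPmem p hp).2.2)
  by_cases h2 : 2 ∈ n.primeFactors
  · set a := n.factorization 2 with ha
    have ha1 : 1 ≤ a := Nat.prime_two.factorization_pos_of_dvd hn0 (Nat.dvd_of_mem_primeFactors h2)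
    have hcard : P.card + 1 = n.primeFactors.card := by
      rw [hP]; exact Finset.card_erase_add_one h2
    rw [← Finset.mul_prod_erase _ _ h2, ← hP] at hfac
    rw [← Finset.mul_prod_erase _ _ h2,
      ← Finset.mul_prod_erase (n.primeFactors) (fun p => p ^ n.factorization p + 1) h2, ← hP,
      ← ha] at heq
    have hs : sp 2 a + 1 = 2 ^ (a + 1) := by
      have := sp_geom 2 a (by norm_num)
      simpa using this
    have h2a : 2 ≤ 2 ^ a := by
      calc 2 = 2 ^ 1 := by norm_num
        _ ≤ 2 ^ a := Nat.pow_le_pow_right (by norm_num) ha1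
    have heng := engine P n.factorization a (sp 2 a) (2 ^ a + 1) n.primeFactors.card
      (by rw [Nat.odd_iff]; rw [pow_succ] at hs; omega) hPodd hP3 hPe hPe1
      (by rw [← ha] at hfac; rw [hfac, heq]; ring)
      (by rw [pow_succ] at hs; omega) (by omega) hk1
      (by
        rw [pow_succ] at hs
        have e1 : P.card + 2 = n.primeFactors.card + 1 := by omega
        rw [e1]
        have e2 : sp 2 a ≤ 2 * 2 ^ a := by omega
        calc sp 2 a * (n.primeFactors.card + 1) ≤ (2 * 2 ^ a) * (n.primeFactors.card + 1) := by gcongr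
          _ = 2 ^ a * (2 * (n.primeFactors.card + 1)) := by ring)
    rw [← ha] at hfac
    rw [hfac] at heng
    exact heng
  · have hPn : P = n.primeFactors := by rw [hP]; exact Finset.erase_eq_of_notMem h2
    have ha : n.factorization 2 = 0 := by
      rw [← Nat.support_factorization, Finsupp.notMem_support_iff] at h2
      exact h2
    rw [← hPn] at heq hfac
    have heng := engine P n.factorization 0 1 1 P.card odd_one hPodd hP3 hPe hPe1
      (by rw [pow_zero, one_mul, one_mul, one_mul, hfac, heq]; ring) le_rfl le_rfl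
      (by rw [hPn]; exact hk1) (by omega)
    rw [pow_zero, one_mul, hfac] at heng
    rw [ha, ← hPn, pow_zero]
    exact heng

theorem final (n : ℕ) (hn : 0 < n)
    (hperf : ∑ d ∈ n.divisors.filter (fun d => 1 < Nat.gcd d (n / d)), d = n)
    (h : ¬ 4 ∣ n ∨ ∀ p ∈ n.primeFactors, p ≠ 2 → n.factorization p % 4 ≠ 3) :
    n < (6 * 2 ^ n.factorization 2 * n.primeFactors.card ^ 2) ^ (4 ^ n.primeFactors.card) := by
  have hns : NU.ns n = n := hperf
  rcases h with h | h
  · exact main n hn hns (exps_auto n hn hns h)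
  · exact main n hn hns h

end Pool.MP_f7abb8_nt.Bound
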