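import Mathlib

set_option autoImplicit false

namespace Pool.MP_f7abb8_nt.Bound

open Finset

/-- `σ(p^e)` -/
def sp (p e : ℕ) : ℕ := ∑ i ∈ range (e + 1), p ^ i

theorem sp_geom (p e : ℕ) (hp : 1 ≤ p) : (p - 1) * sp p e + 1 = p ^ (e + 1) := by
  obtain ⟨q, rfl⟩ : ∃ q, p = q + 1 := ⟨p - 1, by omega⟩
  unfold sp
  induction e with
  | zero => simp
  | succ e ih =>
    rw [Finset.sum_range_succ, mul_add]
    have h2 : (q + 1 - 1) = q := by omega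
    rw [h2] at ih ⊢
    have : q * ∑ i ∈ range (e + 1), (q + 1) ^ i + q * (q + 1) ^ (e + 1) + 1
        = (q * ∑ i ∈ range (e + 1), (q + 1) ^ i + 1) + q * (q + 1) ^ (e + 1) := by ring
    rw [this, ih]
    ring

theorem sp_pos (p e : ℕ) : 0 < sp p e := by
  unfold sp
  rw [Finset.sum_range_succ']
  simp

/-- sum of `p^i`, `i < n`, is odd iff `n` odd (for odd `p`). -/
theorem sum_parity (p : ℕ) (hp : Odd p) (n : ℕ) : (∑ i ∈ range n, p ^ i) % 2 = n % 2 := by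
  induction n with
  | zero => simp
  | succ n ih =>
    rw [Finset.sum_range_succ, Nat.add_mod, ih]
    have : p ^ n % 2 = 1 := Nat.odd_iff.1 hp.pow
    rw [this]
    omega

theorem sum_double (p n : ℕ) : ∑ i ∈ range (2 * n), p ^ i = (p + 1) * ∑ i ∈ range n, (p ^ 2) ^ i := by
  induction n with
  | zero => simp
  | succ n ih =>
    rw [show 2 * (n + 1) = 2 * n + 1 + 1 by ring, Finset.sum_range_succ, Finset.sum_range_succ, ih,
      Finset.sum_range_succ]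
    ring

/-- For `e` even or `e ≡ 1 mod 4`: `σ(p^e) = t * odd` and `p^e + 1 = t * w`. -/
theorem two_adic (p e : ℕ) (hp : Odd p) (he : e % 4 ≠ 3) :
    ∃ t o w : ℕ, Odd o ∧ sp p e = t * o ∧ p ^ e + 1 = t * w := by
  rcases Nat.even_or_odd e with h | h
  · refine ⟨1, sp p e, p ^ e + 1, ?_, by ring, by ring⟩
    rw [Nat.odd_iff]
    unfold sp
    rw [sum_parity p hp]
    rcases h with ⟨r, hr⟩
    omega
  · have h1 : e % 4 = 1 := by
      rcases h with ⟨r, hr⟩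
      omega
    obtain ⟨m, hm⟩ : ∃ m, e = 4 * m + 1 := ⟨e / 4, by omega⟩
    have h2 : (p + 1) ∣ p ^ e + 1 := by
      have := Odd.nat_add_dvd_pow_add_pow p 1 h
      simpa using this
    obtain ⟨w, hw⟩ := h2
    refine ⟨p + 1, ∑ i ∈ range (2 * m + 1), (p ^ 2) ^ i, w, ?_, ?_, hw⟩
    · rw [Nat.odd_iff, sum_parity (p ^ 2) hp.pow]
      omega
    · unfold sp
      rw [hm, show 4 * m + 1 + 1 = 2 * (2 * m + 1) by ring, sum_double]

theorem two_adic_prod (e : ℕ → ℕ) : ∀ F : Finset ℕ, (∀ p ∈ F, Odd p) → (∀ p ∈ F, e p % 4 ≠ 3) →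
    ∃ t : ℕ → ℕ, ∀ G : Finset ℕ, G ⊆ F → ∃ o w : ℕ, Odd o ∧
      ∏ p ∈ G, sp p (e p) = (∏ p ∈ G, t p) * o ∧ ∏ p ∈ G, (p ^ e p + 1) = (∏ p ∈ G, t p) * w := by
  classical
  intro F hF he
  have h : ∀ p : ℕ, ∃ t o w : ℕ, p ∈ F → Odd o ∧ sp p (e p) = t * o ∧ p ^ e p + 1 = t * w := by
    intro p
    by_cases hp : p ∈ F
    · obtain ⟨t, o, w, h1⟩ := two_adic p (e p) (hF p hp) (he p hp)
      exact ⟨t, o, w, fun _ => h1⟩
    · exact ⟨0, 0, 0, fun h => absurd h hp⟩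
  choose t o w htow using h
  refine ⟨t, fun G hG => ⟨∏ p ∈ G, o p, ∏ p ∈ G, w p, ?_, ?_, ?_⟩⟩
  · apply Finset.prod_induction _ (fun n => Odd n)
    · intro a b ha hb; exact ha.mul hb
    · exact odd_one
    · intro p hp; exact (htow p (hG hp)).1
  · rw [← Finset.prod_mul_distrib]
    exact Finset.prod_congr rfl fun p hp => (htow p (hG hp)).2.1
  · rw [← Finset.prod_mul_distrib]
    exact Finset.prod_congr rfl fun p hp => (htow p (hG hp)).2.2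

/-- **Parity lemma.** `P` is a set of odd numbers with exponents `e p` not `3` mod `4`; `s2` is odd and
`s2 ∏_P σ(p^e) = 2^a ∏_P p^e + u2 ∏_P (p^e+1)`.  Then for `R, Q ⊆ P`, `Q ≠ ∅`,
`s2 ∏_R σ(p^e) ∏_Q q ≠ (2^a ∏_R p^e + u2 ∏_R (p^e+1)) ∏_Q (q-1)`. -/
theorem nonvanish (P : Finset ℕ) (e : ℕ → ℕ) (a s2 u2 : ℕ) (hs2 : Odd s2)
    (hP : ∀ p ∈ P, Odd p) (he : ∀ p ∈ P, e p % 4 ≠ 3)
    (heq : s2 * ∏ p ∈ P, sp p (e p) = 2 ^ a * ∏ p ∈ P, p ^ e p + u2 * ∏ p ∈ P, (p ^ e p + 1))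
    (R Q : Finset ℕ) (hR : R ⊆ P) (hQ : Q ⊆ P) (hQne : Q.Nonempty) :
    s2 * (∏ p ∈ R, sp p (e p)) * ∏ q ∈ Q, q ≠
      (2 ^ a * ∏ p ∈ R, p ^ e p + u2 * ∏ p ∈ R, (p ^ e p + 1)) * ∏ q ∈ Q, (q - 1) := by
  classical
  obtain ⟨t, ht⟩ := two_adic_prod e P hP he
  obtain ⟨oP, wP, hoP, hsP, huP⟩ := ht P (Finset.Subset.refl _)
  obtain ⟨oR, wR, hoR, hsR, huR⟩ := ht R hR
  have hoddA : Odd (∏ p ∈ P, p ^ e p) := by
    apply Finset.prod_induction _ (fun n => Odd n)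
    · intro a b ha hb; exact ha.mul hb
    · exact odd_one
    · intro p hp; exact (hP p hp).pow
  -- `2^(a+1)` does not divide `∏_P t`
  have h1 : ¬ 2 ^ (a + 1) ∣ ∏ p ∈ P, t p := by
    intro hd
    have hd1 : 2 ^ (a + 1) ∣ s2 * ∏ p ∈ P, sp p (e p) := by
      rw [hsP]; exact Dvd.dvd.mul_left (Dvd.dvd.mul_right hd _) _
    have hd2 : 2 ^ (a + 1) ∣ u2 * ∏ p ∈ P, (p ^ e p + 1) := by
      rw [huP]; exact Dvd.dvd.mul_left (Dvd.dvd.mul_right hd _) _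
    rw [heq] at hd1
    have hd3 : 2 ^ (a + 1) ∣ 2 ^ a * ∏ p ∈ P, p ^ e p := (Nat.dvd_add_left hd2).1 hd1
    rw [pow_succ] at hd3
    have hd4 : 2 ∣ ∏ p ∈ P, p ^ e p := Nat.dvd_of_mul_dvd_mul_left (by positivity) hd3
    rw [Nat.odd_iff] at hoddA
    omega
  have h2 : ¬ 2 ^ (a + 1) ∣ ∏ p ∈ R, t p := fun hd => h1 (hd.trans (Finset.prod_dvd_prod_of_subset _ _ _ hR))
  have hT0 : (∏ p ∈ R, t p) ≠ 0 := by
    intro h0; rw [h0] at h2; exact h2 (dvd_zero _)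
  obtain ⟨v, m, hm, hv⟩ := Nat.exists_eq_two_pow_mul_odd hT0
  have hva : v ≤ a := by
    by_contra hlt
    apply h2
    rw [hv]
    exact Dvd.dvd.mul_right (pow_dvd_pow 2 (by omega)) _
  intro hcontra
  have hl : 2 ^ (v + 1) ∣ s2 * (∏ p ∈ R, sp p (e p)) * ∏ q ∈ Q, q := by
    rw [hcontra, pow_succ]
    apply Nat.mul_dvd_mul
    · apply Nat.dvd_add
      · exact Dvd.dvd.mul_right (pow_dvd_pow 2 hva) _
      · rw [huR, hv]
        exact Dvd.dvd.mul_left (Dvd.dvd.mul_right (Dvd.intro _ rfl) _) _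
    · obtain ⟨q, hq⟩ := hQne
      have hqo := hP q (hQ hq)
      refine Dvd.dvd.trans ?_ (Finset.dvd_prod_of_mem _ hq)
      rcases hqo with ⟨r, hr⟩
      exact ⟨r, by omega⟩
  have hodd : Odd (s2 * (m * oR) * ∏ q ∈ Q, q) := by
    refine (hs2.mul (hm.mul hoR)).mul ?_
    apply Finset.prod_induction _ (fun n => Odd n)
    · intro a b ha hb; exact ha.mul hb
    · exact odd_one
    · intro p hp; exact hP p (hQ hp)
  have hl2 : s2 * (∏ p ∈ R, sp p (e p)) * ∏ q ∈ Q, q = 2 ^ v * (s2 * (m * oR) * ∏ q ∈ Q, q) := by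
    rw [hsR, hv]; ring
  rw [hl2, pow_succ] at hl
  have hl3 := Nat.dvd_of_mul_dvd_mul_left (by positivity) hl
  rw [Nat.odd_iff] at hodd
  omega

end Pool.MP_f7abb8_nt.Bound
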