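import Pool.Agent.H.MP_f7abb8_nt.Bound.Analytic
import Pool.Agent.H.MP_f7abb8_nt.Bound.Two

set_option autoImplicit false

namespace Pool.MP_f7abb8_nt.Bound

open Finset

theorem sp_real (p e : ℕ) (hp : 1 ≤ p) : ((p : ℝ) - 1) * (sp p e : ℝ) = (p : ℝ) ^ (e + 1) - 1 := by
  have h := sp_geom p e hp
  have h2 : (((p - 1 : ℕ) : ℝ)) * (sp p e : ℝ) + 1 = (p : ℝ) ^ (e + 1) := by exact_mod_cast h
  rw [Nat.cast_sub hp] at h2
  push_cast at h2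
  linarith

theorem sp_ge (p e : ℕ) (he : 1 ≤ e) : p ^ e + 1 ≤ sp p e := by
  unfold sp
  obtain ⟨f, rfl⟩ : ∃ f, e = f + 1 := ⟨e - 1, by omega⟩
  rw [Finset.sum_range_succ, Finset.sum_range_succ']
  simp only [pow_zero]
  omega

/-- The vanishing of the limit quantity is impossible unless everything is revealed. -/
theorem nonvanish' (P : Finset ℕ) (e : ℕ → ℕ) (a s2 u2 : ℕ) (hs2 : Odd s2)
    (hP : ∀ p ∈ P, Odd p) (he : ∀ p ∈ P, e p % 4 ≠ 3) (he1 : ∀ p ∈ P, 1 ≤ e p)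
    (heq : s2 * ∏ p ∈ P, sp p (e p) = 2 ^ a * ∏ p ∈ P, p ^ e p + u2 * ∏ p ∈ P, (p ^ e p + 1))
    (R Q : Finset ℕ) (hR : R ⊆ P) (hQ : Q ⊆ P) (hRP : R ≠ P) :
    s2 * (∏ p ∈ R, sp p (e p)) * ∏ q ∈ Q, q ≠
      (2 ^ a * ∏ p ∈ R, p ^ e p + u2 * ∏ p ∈ R, (p ^ e p + 1)) * ∏ q ∈ Q, (q - 1) := by
  classical
  rcases Q.eq_empty_or_nonempty with h | h
  · subst h
    simp only [Finset.prod_empty, mul_one]
    intro hc
    have e1 : ∀ f : ℕ → ℕ, (∏ p ∈ P \ R, f p) * ∏ p ∈ R, f p = ∏ p ∈ P, f p :=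
      fun f => Finset.prod_sdiff hR
    rw [← e1, ← e1 (fun p => p ^ e p), ← e1 (fun p => p ^ e p + 1)] at heq
    set S := ∏ p ∈ P \ R, sp p (e p)
    set A := ∏ p ∈ P \ R, p ^ e p
    set U := ∏ p ∈ P \ R, (p ^ e p + 1)
    have hSU : U ≤ S := Finset.prod_le_prod' fun p hp => sp_ge p (e p) (he1 p (Finset.mem_sdiff.1 hp).1)
    have hAU : A < U := by
      apply Finset.prod_lt_prod_of_nonempty
      · intro p hp
        have := hP p (Finset.mem_sdiff.1 hp).1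
        have hp0 : 0 < p := by rcases this with ⟨r, hr⟩; omega
        positivity
      · intro p _; omega
      · rw [Finset.sdiff_nonempty]
        intro hs
        exact hRP (Finset.Subset.antisymm hR hs)
    have hX : 0 < 2 ^ a * ∏ p ∈ R, p ^ e p := by
      apply Nat.mul_pos (by positivity)
      apply Finset.prod_pos
      intro p hp
      have := hP p (hR hp)
      have hp0 : 0 < p := by rcases this with ⟨r, hr⟩; omega
      positivity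
    set X := 2 ^ a * ∏ p ∈ R, p ^ e p with hXdef
    set Y := u2 * ∏ p ∈ R, (p ^ e p + 1) with hYdef
    have h1 : (X + Y) * S = X * A + Y * U := by
      calc (X + Y) * S = s2 * (∏ p ∈ R, sp p (e p)) * S := by rw [hc]
        _ = s2 * (S * ∏ p ∈ R, sp p (e p)) := by ring
        _ = _ := by rw [heq, hXdef, hYdef]; ring
    have h2 : X * A < X * S := Nat.mul_lt_mul_of_pos_left (by omega) hX
    have h3 : Y * U ≤ Y * S := Nat.mul_le_mul_left _ hSU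
    nlinarith
  · exact nonvanish P e a s2 u2 hs2 hP he heq R Q hR hQ h

/-- bounds for a prime in `Q` -/
theorem ratio_Q (p e : ℕ) (K : ℝ) (hp : 3 ≤ p) (hK0 : 0 < K) (hK : K < (p : ℝ) ^ e) :
    1 - 1 / K ≤ ((sp p e : ℝ) / (p : ℝ) ^ e) / ((p : ℝ) / ((p : ℝ) - 1)) ∧
      ((sp p e : ℝ) / (p : ℝ) ^ e) / ((p : ℝ) / ((p : ℝ) - 1)) ≤ 1 + 1 / K := by
  have h1 := sp_real p e (by omega)
  have hp3 : (3 : ℝ) ≤ p := by exact_mod_cast hp
  have hpe : (0 : ℝ) < (p : ℝ) ^ (e + 1) := by positivity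
  have e1 : ((sp p e : ℝ) / (p : ℝ) ^ e) / ((p : ℝ) / ((p : ℝ) - 1)) = 1 - 1 / (p : ℝ) ^ (e + 1) := by
    have hp1 : (p : ℝ) - 1 ≠ 0 := by linarith
    have hp0 : (p : ℝ) ≠ 0 := by linarith
    have e2 : ((sp p e : ℝ) / (p : ℝ) ^ e) / ((p : ℝ) / ((p : ℝ) - 1))
        = (((p : ℝ) - 1) * (sp p e : ℝ)) / (p : ℝ) ^ (e + 1) := by
      rw [pow_succ]
      field_simp
    rw [e2, h1]
    field_simp
  rw [e1]
  have h2 : (p : ℝ) ^ e ≤ (p : ℝ) ^ (e + 1) := pow_le_pow_right₀ (by linarith) (by omega)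
  have h3 : 1 / (p : ℝ) ^ (e + 1) ≤ 1 / K := one_div_le_one_div_of_le hK0 (by linarith)
  have h4 : 0 ≤ 1 / (p : ℝ) ^ (e + 1) := by positivity
  have h5 : 0 ≤ 1 / K := by positivity
  constructor <;> linarith

theorem h_le (p e : ℕ) (hp : 3 ≤ p) : (sp p e : ℝ) / (p : ℝ) ^ e ≤ (p : ℝ) / ((p : ℝ) - 1) := by
  have h1 := sp_real p e (by omega)
  have hp3 : (3 : ℝ) ≤ p := by exact_mod_cast hp
  rw [div_le_div_iff₀ (by positivity) (by linarith)]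
  have : (sp p e : ℝ) * ((p : ℝ) - 1) = (p : ℝ) ^ (e + 1) - 1 := by rw [mul_comm]; exact h1
  rw [this, pow_succ]
  linarith [mul_comm ((p : ℝ) ^ e) (p : ℝ)]

theorem y_le_h (p e : ℕ) (hp : 3 ≤ p) (he : 1 ≤ e) :
    ((p : ℝ) ^ e + 1) / (p : ℝ) ^ e ≤ (sp p e : ℝ) / (p : ℝ) ^ e := by
  have hp3 : (3 : ℝ) ≤ p := by exact_mod_cast hp
  have := sp_ge p e he
  have h2 : (p : ℝ) ^ e + 1 ≤ (sp p e : ℝ) := by exact_mod_cast this
  gcongr

theorem y_ge (p e : ℕ) (hp : 3 ≤ p) : 1 ≤ ((p : ℝ) ^ e + 1) / (p : ℝ) ^ e := by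
  have hp3 : (3 : ℝ) ≤ p := by exact_mod_cast hp
  rw [le_div_iff₀ (by positivity)]
  linarith

theorem ratio_M (p e : ℕ) (K : ℝ) (hp : 3 ≤ p) (he : 1 ≤ e) (hK0 : 0 < K) (hK : K + 1 ≤ (p : ℝ)) :
    1 - 1 / K ≤ (sp p e : ℝ) / (p : ℝ) ^ e ∧ (sp p e : ℝ) / (p : ℝ) ^ e ≤ 1 + 1 / K := by
  have h1 := h_le p e hp
  have h2 := y_le_h p e hp he
  have h3 := y_ge p e hp
  have h5 : 0 ≤ 1 / K := by positivity
  refine ⟨by linarith, le_trans h1 ?_⟩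
  have e1 : (1 : ℝ) + 1 / K = (K + 1) / K := by field_simp
  rw [e1, div_le_div_iff₀ (by linarith) hK0]
  nlinarith

theorem y_le (p e : ℕ) (K : ℝ) (hp : 3 ≤ p) (hK0 : 0 < K) (hK : K ≤ (p : ℝ) ^ e) :
    ((p : ℝ) ^ e + 1) / (p : ℝ) ^ e ≤ 1 + 1 / K := by
  have hp3 : (3 : ℝ) ≤ p := by exact_mod_cast hp
  have e1 : ((p : ℝ) ^ e + 1) / (p : ℝ) ^ e = 1 + 1 / (p : ℝ) ^ e := by
    field_simp
  rw [e1]
  have := one_div_le_one_div_of_le hK0 hK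
  linarith

end Pool.MP_f7abb8_nt.Bound
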